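import Pool.Agent.Q89.WR5

/-!
# It is undecidable whether a wreath recursion defines a contracting group

A fixed counter machine with undecidable halting problem gives a fixed contracting self-similar
group and elements `W(N)` of it such that `W(N)` has finite order if and only if the machine stops
on the input `N`. Adding one generator `z = (z, W(N), 1, ..., 1)` gives a wreath recursion whose group
is contracting if and only if `W(N)` has finite order.
-/

namespace Pool.Agent.Results.MP_e16db3_al.ContractionUndecidable

open Pool.Agent.Q89.WR

/-- There is no computable function which, given the numbers `m`, `d` and the table of a wreath
recursion on the free group with `m` generators over an alphabet with `d ≥ 2` letters, tells whether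
the self-similar group defined by the recursion is contracting. -/
theorem result :
    ¬ ∃ f : ℕ × ℕ × List (List (ℕ × List (ℕ × Bool))) → Bool, Computable f ∧
      ∀ (m d : ℕ) (R : Rec (Fin m) (Fin d)), 2 ≤ d →
        (f (m, d, R.table) = true ↔ R.Contracting) :=
  not_decidable_contracting

end Pool.Agent.Results.MP_e16db3_al.ContractionUndecidable
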