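import Pool.Agent.Q284.RevScen

/-!
# `G_4(π)` is disconnected for `π = (5,4,3,2,1)`
-/

namespace Pool.Agent.Results.MP_75988d_co.FiveReversed

open Pool.Agent.Q284.RevScen

/-! ### The finite check -/

def revs : List (ℕ × ℕ) :=
  [(1,1),(1,2),(1,3),(1,4),(1,5),(2,2),(2,3),(2,4),(2,5),(3,3),(3,4),(3,5),(4,4),(4,5),(5,5)]

def app (r : ℕ × ℕ) (w : List ℤ) : List ℤ := w.map (rv r.1 r.2)

def bpAux : ℤ → List ℤ → ℕ
  | a, [] => if a = 5 then 0 else 1
  | a, b :: l => (if b = a + 1 then 0 else 1) + bpAux b l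

def bp (w : List ℤ) : ℕ := bpAux 0 w

def chk4 (r1 r2 r3 : ℕ × ℕ) (u3 : List ℤ) : Bool :=
  (4 < bp u3 : Bool) || revs.all fun r4 => (2 < bp (app r4 u3) : Bool) ||
    ((app r4 u3 != [1,2,3,4,5]) && revs.all fun r5 => (app r5 (app r4 u3) != [1,2,3,4,5]) ||
      ((r1.1 + r2.1) % 2 == 1 && (r2.1 + r3.1) % 2 == 1 && (r3.1 + r4.1) % 2 == 1
        && (r4.1 + r5.1) % 2 == 1))

def chk2 (r1 r2 : ℕ × ℕ) : Bool :=
  revs.all fun r3 => chk4 r1 r2 r3 (app r3 (app r2 (app r1 [5,4,3,2,1])))

theorem chk_all : (revs.all fun r1 => revs.all fun r2 => chk2 r1 r2) = true := by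
  decide +kernel

theorem bp_one : (revs.all fun r5 => (bp (app r5 [1,2,3,4,5]) ≤ 2 : Bool)) = true := by
  decide +kernel

theorem bp_two : (revs.all fun r4 => revs.all fun r5 =>
    (bp (app r4 (app r5 [1,2,3,4,5])) ≤ 4 : Bool)) = true := by
  decide +kernel

theorem mem_revs (r : Rev 5) : r.1 ∈ revs := by
  obtain ⟨⟨i, j⟩, h1, h2, h3⟩ := r
  simp only at h1 h2 h3
  have hj : j ≤ 5 := h3
  interval_cases j <;> interval_cases i <;> simp_all [revs]

theorem app_app (r : Rev 5) (w : List ℤ) : app r.1 (app r.1 w) = w := by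
  unfold app
  rw [List.map_map]
  conv_rhs => rw [← List.map_id w]
  congr 1
  funext x
  simp only [Function.comp, id]
  apply rv_inv
  · exact_mod_cast r.2.1
  · exact_mod_cast r.2.2.1

theorem check (r1 r2 r3 r4 : Rev 5) :
    app r4.1 (app r3.1 (app r2.1 (app r1.1 [5,4,3,2,1]))) ≠ [1,2,3,4,5] ∧
    ∀ r5 : Rev 5, app r5.1 (app r4.1 (app r3.1 (app r2.1 (app r1.1 [5,4,3,2,1]))))
        = [1,2,3,4,5] →
      (r1.1.1 + r2.1.1) % 2 = 1 ∧ (r2.1.1 + r3.1.1) % 2 = 1 ∧ (r3.1.1 + r4.1.1) % 2 = 1 ∧
        (r4.1.1 + r5.1.1) % 2 = 1 := by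
  have h0 := chk_all
  rw [List.all_eq_true] at h0
  have h1 := h0 _ (mem_revs r1)
  rw [List.all_eq_true] at h1
  have h2 := h1 _ (mem_revs r2)
  unfold chk2 at h2
  rw [List.all_eq_true] at h2
  have h3 := h2 _ (mem_revs r3)
  set u3 := app r3.1 (app r2.1 (app r1.1 [5,4,3,2,1])) with hu3
  unfold chk4 at h3
  have hb1 := bp_one
  rw [List.all_eq_true] at hb1
  have hb2 := bp_two
  rw [List.all_eq_true] at hb2
  constructor
  · intro h
    -- u3 = app r4 [1..5]
    have e3 : u3 = app r4.1 [1,2,3,4,5] := by rw [← h, app_app]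
    have b3 : bp u3 ≤ 2 := by
      rw [e3]
      simpa using hb1 _ (mem_revs r4)
    have b4 : bp (app r4.1 u3) ≤ 2 := by
      rw [h]; decide
    rw [Bool.or_eq_true, List.all_eq_true] at h3
    rcases h3 with h3 | h3
    · simp only [decide_eq_true_eq] at h3
      omega
    · have h4 := h3 _ (mem_revs r4)
      rw [Bool.or_eq_true, Bool.and_eq_true] at h4
      rcases h4 with h4 | h4
      · simp only [decide_eq_true_eq] at h4
        omega
      · have := h4.1
        rw [h] at this
        exact absurd this (by decide)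
  · intro r5 h
    have e4 : app r4.1 u3 = app r5.1 [1,2,3,4,5] := by rw [← h, app_app]
    have e3 : u3 = app r4.1 (app r5.1 [1,2,3,4,5]) := by rw [← e4, app_app]
    have b3 : bp u3 ≤ 4 := by
      have := hb2 _ (mem_revs r4)
      rw [List.all_eq_true] at this
      rw [e3]
      simpa using this _ (mem_revs r5)
    have b4 : bp (app r4.1 u3) ≤ 2 := by
      rw [e4]
      simpa using hb1 _ (mem_revs r5)
    rw [Bool.or_eq_true, List.all_eq_true] at h3
    rcases h3 with h3 | h3
    · simp only [decide_eq_true_eq] at h3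
      omega
    · have h4 := h3 _ (mem_revs r4)
      rw [Bool.or_eq_true, Bool.and_eq_true, List.all_eq_true] at h4
      rcases h4 with h4 | h4
      · simp only [decide_eq_true_eq] at h4
        omega
      · have h5 := h4.2 _ (mem_revs r5)
        rw [Bool.or_eq_true] at h5
        rcases h5 with h5 | h5
        · rw [h] at h5
          exact absurd h5 (by decide)
        · simp only [Bool.and_eq_true, beq_iff_eq] at h5
          exact ⟨h5.1.1.1, h5.1.1.2, h5.1.2, h5.2⟩

/-! ### The signed permutation `(5,4,3,2,1)` -/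

/-- The signed permutation `(5,4,3,2,1)`. -/
def rev5 : SignedPerm 5 :=
  ⟨Function.Involutive.toPerm (fun x => ⟨if 0 < x.1 then 6 - x.1 else -6 - x.1, by
      obtain ⟨x, hx, hx'⟩ := x
      rw [abs_le] at hx'
      simp only at *
      split_ifs <;> (rw [abs_le]; push_cast at *; omega)⟩) (by
      intro x
      obtain ⟨x, hx, hx'⟩ := x
      apply Subtype.ext
      rw [abs_le] at hx'
      push_cast at hx'
      simp only
      split_ifs <;> omega), by
    intro x
    obtain ⟨x, hx, hx'⟩ := x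
    apply Subtype.ext
    show (if 0 < -x then 6 - -x else -6 - -x) = -(if 0 < x then 6 - x else -6 - x)
    split_ifs <;> omega⟩

theorem rev5_val (x : Pt 5) : (rev5.1 x).1 = if 0 < x.1 then 6 - x.1 else -6 - x.1 := rfl

/-- the sorting condition for a list of reversals -/
def SortsL (l : List (Rev 5)) : Prop := rev5.1 * (l.map rho).prod = 1

theorem rho_mul_self {n : ℕ} (r : Rev n) : rho r * rho r = 1 := by
  ext x
  rw [Equiv.Perm.mul_apply, rho_val, rho_val, rv_inv]
  · rfl
  · exact_mod_cast r.2.1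
  · exact_mod_cast r.2.2.1

theorem SortsL.pad {l : List (Rev 5)} (h : SortsL l) (r : Rev 5) : SortsL (l ++ [r, r]) := by
  unfold SortsL at *
  rw [List.map_append, List.prod_append, ← mul_assoc, h, one_mul]
  simp [rho_mul_self]

theorem SortsL.word {l : List (Rev 5)} (h : SortsL l) (x : ℤ) (hx : 1 ≤ x) (hx' : x ≤ 5) :
    l.foldl (fun y r => rv r.1.1 r.1.2 y) (6 - x) = x := by
  have key : ∀ (l : List (Rev 5)) (a : Pt 5),
      l.foldl (fun y r => rv r.1.1 r.1.2 y) a.1 = ((l.map rho).prod⁻¹ a).1 := by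
    intro l
    induction l with
    | nil => intro a; simp
    | cons r l ih =>
      intro a
      rw [List.foldl_cons, List.map_cons, List.prod_cons, mul_inv_rev, Equiv.Perm.mul_apply]
      have h1 : (rho r)⁻¹ = rho r := inv_eq_of_mul_eq_one_left (rho_mul_self r)
      rw [h1]
      have := ih (rho r a)
      rw [rho_val] at this
      exact this
  have hinv : (l.map rho).prod⁻¹ = rev5.1 := (eq_inv_of_mul_eq_one_left h).symm
  have h6 : (⟨6 - x, by omega, by rw [abs_le]; push_cast; omega⟩ : Pt 5).1 = 6 - x := rfl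
  rw [← h6, key, hinv, rev5_val, h6, if_pos (by omega)]
  omega

theorem len4 (r1 r2 r3 r4 : Rev 5) : ¬ SortsL [r1, r2, r3, r4] := by
  intro h
  apply (check r1 r2 r3 r4).1
  have h1 := h.word 1 (by norm_num) (by norm_num)
  have h2 := h.word 2 (by norm_num) (by norm_num)
  have h3 := h.word 3 (by norm_num) (by norm_num)
  have h4 := h.word 4 (by norm_num) (by norm_num)
  have h5 := h.word 5 (by norm_num) (by norm_num)
  simp only [List.foldl_cons, List.foldl_nil] at h1 h2 h3 h4 h5
  norm_num at h1 h2 h3 h4 h5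
  simp only [app, List.map_cons, List.map_nil, h1, h2, h3, h4, h5]

theorem len5 (r1 r2 r3 r4 r5 : Rev 5) (h : SortsL [r1, r2, r3, r4, r5]) :
    (r1.1.1 + r2.1.1) % 2 = 1 ∧ (r2.1.1 + r3.1.1) % 2 = 1 ∧ (r3.1.1 + r4.1.1) % 2 = 1 ∧
        (r4.1.1 + r5.1.1) % 2 = 1 := by
  apply (check r1 r2 r3 r4).2
  have h1 := h.word 1 (by norm_num) (by norm_num)
  have h2 := h.word 2 (by norm_num) (by norm_num)
  have h3 := h.word 3 (by norm_num) (by norm_num)
  have h4 := h.word 4 (by norm_num) (by norm_num)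
  have h5 := h.word 5 (by norm_num) (by norm_num)
  simp only [List.foldl_cons, List.foldl_nil] at h1 h2 h3 h4 h5
  norm_num at h1 h2 h3 h4 h5
  simp only [app, List.map_cons, List.map_nil, h1, h2, h3, h4, h5]

/-- the reversal `ρ_{1,1}` -/
def r11 : Rev 5 := ⟨(1, 1), by decide⟩

theorem five_le_length (l : List (Rev 5)) (h : SortsL l) : 5 ≤ l.length := by
  by_contra hlt
  push_neg at hlt
  match l, hlt with
  | [], _ =>
    have := (h.pad r11).pad r11
    simp only [List.nil_append, List.cons_append] at this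
    exact len4 _ _ _ _ this
  | [a], _ =>
    have := (h.pad r11).pad r11
    simp only [List.nil_append, List.cons_append] at this
    have := len5 _ _ _ _ _ this
    simp [r11] at this
  | [a, b], _ =>
    have := h.pad r11
    simp only [List.nil_append, List.cons_append] at this
    exact len4 _ _ _ _ this
  | [a, b, c], _ =>
    have := h.pad r11
    simp only [List.nil_append, List.cons_append] at this
    have := len5 _ _ _ _ _ this
    simp [r11] at this
  | [a, b, c, d], _ => exact len4 _ _ _ _ h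
  | _ :: _ :: _ :: _ :: _ :: l, hlt =>
    simp only [List.length_cons] at hlt
    omega

theorem sorts_iff {k : ℕ} (s : Fin k → Rev 5) : Sorts rev5 s ↔ SortsL (List.ofFn s) := by
  unfold Sorts SortsL
  rw [List.map_ofFn]
  rfl

/-- `ρ_{1,4}` -/
def r14 : Rev 5 := ⟨(1, 4), by decide⟩

/-- `ρ_{2,5}` -/
def r25 : Rev 5 := ⟨(2, 5), by decide⟩

theorem sortsA : SortsL [r14, r25, r14, r25, r14] := by
  unfold SortsL
  ext x
  obtain ⟨x, hx, hx'⟩ := x
  rw [abs_le] at hx'
  push_cast at hx'
  obtain ⟨hx1, hx2⟩ := hx'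
  simp only [List.map_cons, List.map_nil, List.prod_cons, List.prod_nil, mul_one,
    Equiv.Perm.mul_apply, rev5_val, rho_val, Equiv.Perm.coe_one, id_eq]
  interval_cases x <;> first | exact absurd rfl hx | decide +kernel

theorem sortsB : SortsL [r25, r14, r25, r14, r25] := by
  unfold SortsL
  ext x
  obtain ⟨x, hx, hx'⟩ := x
  rw [abs_le] at hx'
  push_cast at hx'
  obtain ⟨hx1, hx2⟩ := hx'
  simp only [List.map_cons, List.map_nil, List.prod_cons, List.prod_nil, mul_one,
    Equiv.Perm.mul_apply, rev5_val, rho_val, Equiv.Perm.coe_one, id_eq]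
  interval_cases x <;> first | exact absurd rfl hx | decide +kernel

theorem revDist_rev5 : revDist rev5 = 5 := by
  apply le_antisymm
  · apply Nat.sInf_le
    refine ⟨![r14, r25, r14, r25, r14], ?_⟩
    rw [sorts_iff]
    exact sortsA
  · apply le_csInf
    · refine ⟨5, ![r14, r25, r14, r25, r14], ?_⟩
      rw [sorts_iff]
      exact sortsA
    · rintro k ⟨s, hs⟩
      rw [sorts_iff] at hs
      simpa using five_le_length _ hs

/-- If two scenarios of length 5 agree in some position, the left ends of their first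
reversals have the same parity. -/
theorem parity_eq {k : ℕ} (hk : k = 5) (s t : Fin k → Rev 5) (hs : Sorts rev5 s)
    (ht : Sorts rev5 t) (hd : hammingDist s t ≤ 4) :
    (s ⟨0, by omega⟩).1.1 % 2 = (t ⟨0, by omega⟩).1.1 % 2 := by
  subst hk
  rw [sorts_iff] at hs ht
  have hs' := len5 (s 0) (s 1) (s 2) (s 3) (s 4) (by simpa [List.ofFn_succ] using hs)
  have ht' := len5 (t 0) (t 1) (t 2) (t 3) (t 4) (by simpa [List.ofFn_succ] using ht)
  have hex : ∃ i : Fin 5, s i = t i := by
    by_contra hno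
    push_neg at hno
    have : hammingDist s t = 5 := by
      unfold hammingDist
      rw [Finset.filter_true_of_mem (fun i _ => hno i)]
      simp
    omega
  obtain ⟨i, hi⟩ := hex
  show (s 0).1.1 % 2 = (t 0).1.1 % 2
  obtain ⟨a1, a2, a3, a4⟩ := hs'
  obtain ⟨b1, b2, b3, b4⟩ := ht'
  have hi' : (s i).1.1 = (t i).1.1 := by rw [hi]
  fin_cases i <;> simp only [Fin.zero_eta, Fin.mk_one, Fin.reduceFinMk] at hi' <;> omega

theorem cast_sorts {k : ℕ} (hk : k = 5) (s : Fin 5 → Rev 5) (hs : Sorts rev5 s) :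
    ∃ s' : Fin k → Rev 5, Sorts rev5 s' ∧ s' ⟨0, by omega⟩ = s 0 := by
  subst hk
  exact ⟨s, hs, rfl⟩

/-- **The graph `G_4(π)` of optimal reversal scenarios of `π = (5,4,3,2,1)` is disconnected.**
The signed permutation `π` of size `5` with `π(x) = 6 - x` for `x > 0` has reversal distance
`5`, and there are two optimal scenarios for `π` that are not joined by any chain of optimal
scenarios in which consecutive members differ in at most `4` positions. -/
theorem result : ∃ π : SignedPerm 5, (∀ x : Pt 5, 0 < x.1 → (π.1 x).1 = 6 - x.1) ∧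
    revDist π = 5 ∧
    ∃ s t : OptScenario π, ¬ (scenGraph 4 π).Reachable s t := by
  refine ⟨rev5, ?_, revDist_rev5, ?_⟩
  · intro x hx
    rw [rev5_val, if_pos hx]
  · obtain ⟨s, hs, hs0⟩ := cast_sorts revDist_rev5 ![r14, r25, r14, r25, r14]
      ((sorts_iff _).2 sortsA)
    obtain ⟨t, ht, ht0⟩ := cast_sorts revDist_rev5 ![r25, r14, r25, r14, r25]
      ((sorts_iff _).2 sortsB)
    refine ⟨⟨s, hs⟩, ⟨t, ht⟩, ?_⟩
    intro hr
    have inv : ∀ a b : OptScenario rev5, (scenGraph 4 rev5).Reachable a b →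
        (a.1 ⟨0, by rw [revDist_rev5]; norm_num⟩).1.1 % 2
          = (b.1 ⟨0, by rw [revDist_rev5]; norm_num⟩).1.1 % 2 := by
      intro a b hab
      obtain ⟨w⟩ := hab
      induction w with
      | nil => rfl
      | cons h _ ih =>
        rw [← ih]
        exact parity_eq revDist_rev5 _ _ (Subtype.property _) (Subtype.property _) h.2
    have h := inv _ _ hr
    simp only at h
    rw [hs0, ht0] at h
    revert h
    decide

end Pool.Agent.Results.MP_75988d_co.FiveReversed
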