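import Mathlib

/-!
# Hessian nilpotent power series without the vanishing property

For every `N` the (entire, non-polynomial) power series in four variables
`P = (z₀ - i z₁) (z₂ + i z₃)^N + ∑_{k > N} (z₀ + i z₁)^k / k!`
has order at least `N + 1`, is Hessian nilpotent, and `Δ^m P^(m+1) ≠ 0` for every `m`.
Indeed, with `u = z₀ + i z₁`, `v = z₀ - i z₁`, `p = z₂ + i z₃` one has
`Δ^m P^(m+1) = 4^m (m+1)! p^(N m) g^(m)(u)` for `m ≥ 1`, where `P = v p^N + g(u)`.
-/

set_option autoImplicit false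

open MvPowerSeries

namespace Pool.Agent.Results.MP_03a7fb_al.NoVanishing

/-- Formal power series over `ℂ` in the four variables `z₀, z₁, z₂, z₃`. -/
abbrev R : Type := MvPowerSeries (Fin 4) ℂ

/-- The Laplace operator `Δ = ∑ ∂²/∂z_i²`. -/
noncomputable def Lap (P : R) : R := ∑ i : Fin 4, pderiv ℂ i (pderiv ℂ i P)

/-- The Hessian matrix `(∂²P/∂z_i ∂z_j)`. -/
noncomputable def Hes (P : R) : Matrix (Fin 4) (Fin 4) R :=
  Matrix.of fun i j => pderiv ℂ i (pderiv ℂ j P)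

/-- The power series `∑_{k ≥ K} (z₀ + i z₁)^k / k!`: its coefficient at `z₀^a z₁^b` with
`a + b ≥ K` is `i^b / (a! b!)`, all other coefficients vanish. -/
noncomputable def expTail (K : ℕ) : R := fun d =>
  if d 2 = 0 ∧ d 3 = 0 ∧ K ≤ d 0 + d 1 then
    Complex.I ^ d 1 / ((d 0).factorial * (d 1).factorial : ℂ) else 0

/-- The power series `(z₀ - i z₁) (z₂ + i z₃)^N + ∑_{k > N} (z₀ + i z₁)^k / k!`. -/
noncomputable def exP (N : ℕ) : R :=
  (X 0 - C Complex.I * X 1) * (X 2 + C Complex.I * X 3) ^ N + expTail (N + 1)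

/-- The element `i` of `R`. -/
noncomputable def ii : R := C Complex.I

theorem ii_sq : ii * ii = -1 := by
  unfold ii
  rw [← map_mul, Complex.I_mul_I, map_neg, map_one]

theorem pderiv_comm (i j : Fin 4) (F : R) :
    pderiv ℂ i (pderiv ℂ j F) = pderiv ℂ j (pderiv ℂ i F) := by
  ext d
  simp only [coeff_pderiv]
  by_cases h : i = j
  · subst h; rfl
  · have h1 : d + Finsupp.single i 1 + Finsupp.single j 1 =
        d + Finsupp.single j 1 + Finsupp.single i 1 := by abel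
    rw [h1]
    have h2 : (Finsupp.single i 1 : Fin 4 →₀ ℕ) j = 0 := Finsupp.single_eq_of_ne (Ne.symm h)
    have h3 : (Finsupp.single j 1 : Fin 4 →₀ ℕ) i = 0 := Finsupp.single_eq_of_ne h
    simp only [Finsupp.add_apply, h2, h3, add_zero]
    ring

theorem pderiv_ii0 (i : Fin 4) : pderiv ℂ i ii = 0 := by
  unfold ii
  simp

theorem pderiv_ii (i : Fin 4) (F : R) : pderiv ℂ i (ii * F) = ii * pderiv ℂ i F := by
  rw [Derivation.leibniz]
  unfold ii
  simp [smul_eq_mul]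

theorem pderiv_mul (i : Fin 4) (F G : R) :
    pderiv ℂ i (F * G) = pderiv ℂ i F * G + F * pderiv ℂ i G := by
  rw [Derivation.leibniz]
  simp only [smul_eq_mul]
  ring

/-- functions of `v` -/
def FV (A : R) : Prop := pderiv ℂ 1 A = -(ii * pderiv ℂ 0 A) ∧ pderiv ℂ 2 A = 0 ∧ pderiv ℂ 3 A = 0
/-- functions of `u` -/
def FU (A : R) : Prop := pderiv ℂ 1 A = ii * pderiv ℂ 0 A ∧ pderiv ℂ 2 A = 0 ∧ pderiv ℂ 3 A = 0
/-- functions of `p` -/
def FP (A : R) : Prop := pderiv ℂ 0 A = 0 ∧ pderiv ℂ 1 A = 0 ∧ pderiv ℂ 3 A = ii * pderiv ℂ 2 A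

theorem FV.D {A : R} (h : FV A) : FV (pderiv ℂ 0 A) := by
  obtain ⟨h1, h2, h3⟩ := h
  refine ⟨?_, ?_, ?_⟩
  · rw [pderiv_comm, h1, map_neg, pderiv_ii]
  · rw [pderiv_comm, h2, map_zero]
  · rw [pderiv_comm, h3, map_zero]

theorem FU.D {A : R} (h : FU A) : FU (pderiv ℂ 0 A) := by
  obtain ⟨h1, h2, h3⟩ := h
  refine ⟨?_, ?_, ?_⟩
  · rw [pderiv_comm, h1, pderiv_ii]
  · rw [pderiv_comm, h2, map_zero]
  · rw [pderiv_comm, h3, map_zero]

theorem FV.mul {A B : R} (hA : FV A) (hB : FV B) : FV (A * B) := by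
  obtain ⟨h1, h2, h3⟩ := hA
  obtain ⟨k1, k2, k3⟩ := hB
  refine ⟨?_, ?_, ?_⟩ <;> simp only [pderiv_mul, h1, h2, h3, k1, k2, k3] <;> ring

theorem FU.mul {A B : R} (hA : FU A) (hB : FU B) : FU (A * B) := by
  obtain ⟨h1, h2, h3⟩ := hA
  obtain ⟨k1, k2, k3⟩ := hB
  refine ⟨?_, ?_, ?_⟩ <;> simp only [pderiv_mul, h1, h2, h3, k1, k2, k3] <;> ring

theorem FP.mul {A B : R} (hA : FP A) (hB : FP B) : FP (A * B) := by
  obtain ⟨h1, h2, h3⟩ := hA
  obtain ⟨k1, k2, k3⟩ := hB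
  refine ⟨?_, ?_, ?_⟩ <;> simp only [pderiv_mul, h1, h2, h3, k1, k2, k3] <;> ring

theorem FV.one : FV 1 := by
  refine ⟨?_, ?_, ?_⟩ <;> simp
theorem FU.one : FU 1 := by
  refine ⟨?_, ?_, ?_⟩ <;> simp
theorem FP.one : FP 1 := by
  refine ⟨?_, ?_, ?_⟩ <;> simp

theorem FV.pow {A : R} (hA : FV A) (k : ℕ) : FV (A ^ k) := by
  induction k with
  | zero => simpa using FV.one
  | succ k ih => rw [pow_succ]; exact ih.mul hA
theorem FU.pow {A : R} (hA : FU A) (k : ℕ) : FU (A ^ k) := by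
  induction k with
  | zero => simpa using FU.one
  | succ k ih => rw [pow_succ]; exact ih.mul hA
theorem FP.pow {A : R} (hA : FP A) (k : ℕ) : FP (A ^ k) := by
  induction k with
  | zero => simpa using FP.one
  | succ k ih => rw [pow_succ]; exact ih.mul hA

/-- `v = z₀ - i z₁` -/
noncomputable def vv : R := X 0 - C Complex.I * X 1
/-- `p = z₂ + i z₃` -/
noncomputable def pp : R := X 2 + C Complex.I * X 3

theorem D0_vv : pderiv ℂ 0 vv = 1 := by
  unfold vv
  rw [map_sub, pderiv_mul]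
  simp [pderiv_X_of_ne]
theorem D1_vv : pderiv ℂ 1 vv = -ii := by
  unfold vv
  rw [map_sub, pderiv_mul]
  simp [pderiv_X_of_ne, ii]
theorem FV_vv : FV vv := by
  refine ⟨?_, ?_, ?_⟩
  · rw [D0_vv, D1_vv, mul_one]
  · unfold vv
    rw [map_sub, pderiv_mul]
    simp [pderiv_X_of_ne]
  · unfold vv
    rw [map_sub, pderiv_mul]
    simp [pderiv_X_of_ne]
theorem D2_pp : pderiv ℂ 2 pp = 1 := by
  unfold pp
  rw [map_add, pderiv_mul]
  simp [pderiv_X_of_ne]
theorem FP_pp : FP pp := by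
  refine ⟨?_, ?_, ?_⟩
  · unfold pp
    rw [map_add, pderiv_mul]
    simp [pderiv_X_of_ne]
  · unfold pp
    rw [map_add, pderiv_mul]
    simp [pderiv_X_of_ne]
  · rw [D2_pp]
    unfold pp
    rw [map_add, pderiv_mul]
    simp [pderiv_X_of_ne, ii]

theorem coeff_expTail (K : ℕ) (d : Fin 4 →₀ ℕ) : coeff d (expTail K) =
    if d 2 = 0 ∧ d 3 = 0 ∧ K ≤ d 0 + d 1 then
    Complex.I ^ d 1 / ((d 0).factorial * (d 1).factorial : ℂ) else 0 := rfl

theorem D0_expTail (K : ℕ) : pderiv ℂ 0 (expTail K) = expTail (K - 1) := by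
  ext d
  rw [coeff_pderiv, coeff_expTail, coeff_expTail]
  have e0 : (d + Finsupp.single 0 1 : Fin 4 →₀ ℕ) 0 = d 0 + 1 := by simp
  have e1 : (d + Finsupp.single 0 1 : Fin 4 →₀ ℕ) 1 = d 1 := by simp
  have e2 : (d + Finsupp.single 0 1 : Fin 4 →₀ ℕ) 2 = d 2 := by simp
  have e3 : (d + Finsupp.single 0 1 : Fin 4 →₀ ℕ) 3 = d 3 := by simp
  rw [e0, e1, e2, e3]
  have hc : (d 2 = 0 ∧ d 3 = 0 ∧ K ≤ d 0 + 1 + d 1) ↔ (d 2 = 0 ∧ d 3 = 0 ∧ K - 1 ≤ d 0 + d 1) := by
    constructor <;> rintro ⟨a, b, c⟩ <;> exact ⟨a, b, by omega⟩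
  rw [if_congr hc rfl rfl]
  split_ifs with h
  · rw [Nat.factorial_succ]
    have h1 : ((d 0).factorial : ℂ) ≠ 0 := by exact_mod_cast (d 0).factorial_ne_zero
    have h2 : ((d 1).factorial : ℂ) ≠ 0 := by exact_mod_cast (d 1).factorial_ne_zero
    have h3 : ((d 0 : ℂ) + 1) ≠ 0 := by exact_mod_cast (Nat.succ_ne_zero (d 0))
    push_cast
    field_simp
  · simp

theorem D1_expTail (K : ℕ) : pderiv ℂ 1 (expTail K) = ii * expTail (K - 1) := by
  ext d
  unfold ii
  rw [coeff_pderiv, coeff_C_mul, coeff_expTail, coeff_expTail]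
  have e0 : (d + Finsupp.single 1 1 : Fin 4 →₀ ℕ) 0 = d 0 := by simp
  have e1 : (d + Finsupp.single 1 1 : Fin 4 →₀ ℕ) 1 = d 1 + 1 := by simp
  have e2 : (d + Finsupp.single 1 1 : Fin 4 →₀ ℕ) 2 = d 2 := by simp
  have e3 : (d + Finsupp.single 1 1 : Fin 4 →₀ ℕ) 3 = d 3 := by simp
  rw [e0, e1, e2, e3]
  have hc : (d 2 = 0 ∧ d 3 = 0 ∧ K ≤ d 0 + (d 1 + 1)) ↔
      (d 2 = 0 ∧ d 3 = 0 ∧ K - 1 ≤ d 0 + d 1) := by
    constructor <;> rintro ⟨a, b, c⟩ <;> exact ⟨a, b, by omega⟩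
  rw [if_congr hc rfl rfl]
  split_ifs with h
  · rw [Nat.factorial_succ]
    have h1 : ((d 0).factorial : ℂ) ≠ 0 := by exact_mod_cast (d 0).factorial_ne_zero
    have h2 : ((d 1).factorial : ℂ) ≠ 0 := by exact_mod_cast (d 1).factorial_ne_zero
    have h3 : ((d 1 : ℂ) + 1) ≠ 0 := by exact_mod_cast (Nat.succ_ne_zero (d 1))
    push_cast
    rw [pow_succ]
    field_simp
  · simp

theorem D2_expTail (K : ℕ) : pderiv ℂ 2 (expTail K) = 0 := by
  ext d
  rw [coeff_pderiv, coeff_expTail, if_neg]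
  · simp
  · simp
theorem D3_expTail (K : ℕ) : pderiv ℂ 3 (expTail K) = 0 := by
  ext d
  rw [coeff_pderiv, coeff_expTail, if_neg]
  · simp
  · simp

theorem FU_expTail (K : ℕ) : FU (expTail K) := by
  refine ⟨?_, D2_expTail K, D3_expTail K⟩
  rw [D0_expTail, D1_expTail]

theorem lap_term {A Q F : R} (hA : FV A) (hQ : FP Q) (hF : FU F) :
    Lap (A * Q * F) = 4 * (pderiv ℂ 0 A * Q * pderiv ℂ 0 F) := by
  obtain ⟨a1, a2, a3⟩ := hA
  obtain ⟨q1, q2, q3⟩ := hQ
  obtain ⟨f1, f2, f3⟩ := hF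
  have a11 : pderiv ℂ 1 (pderiv ℂ 0 A) = -(ii * pderiv ℂ 0 (pderiv ℂ 0 A)) := by
    rw [pderiv_comm, a1, map_neg, pderiv_ii]
  have f11 : pderiv ℂ 1 (pderiv ℂ 0 F) = ii * pderiv ℂ 0 (pderiv ℂ 0 F) := by
    rw [pderiv_comm, f1, pderiv_ii]
  have q11 : pderiv ℂ 3 (pderiv ℂ 2 Q) = ii * pderiv ℂ 2 (pderiv ℂ 2 Q) := by
    rw [pderiv_comm, q3, pderiv_ii]
  unfold Lap
  rw [Fin.sum_univ_four]
  simp only [pderiv_mul, map_add, a1, a2, a3, q1, q2, q3, f1, f2, f3, map_neg, pderiv_ii0,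
    a11, f11, q11, mul_zero, zero_mul, add_zero, zero_add, neg_mul, mul_neg]
  linear_combination (pderiv ℂ 0 (pderiv ℂ 0 A) * Q * F + A * Q * pderiv ℂ 0 (pderiv ℂ 0 F)
    - 2 * pderiv ℂ 0 A * Q * pderiv ℂ 0 F + A * F * pderiv ℂ 2 (pderiv ℂ 2 Q)) * ii_sq

theorem iter_FV {A : R} (hA : FV A) (j : ℕ) : FV ((pderiv ℂ 0)^[j] A) := by
  induction j with
  | zero => exact hA
  | succ j ih => rw [Function.iterate_succ_apply']; exact ih.D

theorem iter_FU {A : R} (hA : FU A) (j : ℕ) : FU ((pderiv ℂ 0)^[j] A) := by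
  induction j with
  | zero => exact hA
  | succ j ih => rw [Function.iterate_succ_apply']; exact ih.D

theorem Lap_smul4 (c : ℕ) (F : R) : Lap ((c : R) * F) = (c : R) * Lap F := by
  unfold Lap
  rw [Finset.mul_sum]
  refine Finset.sum_congr rfl fun i _ => ?_
  rw [← nsmul_eq_mul, map_nsmul, map_nsmul, nsmul_eq_mul]

theorem Lap_add (F G : R) : Lap (F + G) = Lap F + Lap G := by
  unfold Lap
  rw [← Finset.sum_add_distrib]
  refine Finset.sum_congr rfl fun i _ => ?_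
  rw [map_add, map_add]

theorem Lap_zero : Lap 0 = 0 := by
  unfold Lap
  simp

theorem lap_iter {A Q F : R} (hA : FV A) (hQ : FP Q) (hF : FU F) (j : ℕ) :
    Lap^[j] (A * Q * F) = ((4 ^ j : ℕ) : R) * ((pderiv ℂ 0)^[j] A * Q * (pderiv ℂ 0)^[j] F) := by
  induction j with
  | zero => simp
  | succ j ih =>
    rw [Function.iterate_succ_apply', ih, Lap_smul4, lap_term (iter_FV hA j) hQ (iter_FU hF j),
      Function.iterate_succ_apply', Function.iterate_succ_apply']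
    push_cast
    ring

theorem Lap_sum {ι : Type} (s : Finset ι) (f : ι → R) :
    Lap (∑ i ∈ s, f i) = ∑ i ∈ s, Lap (f i) := by
  classical
  induction s using Finset.induction_on with
  | empty => simp [Lap_zero]
  | insert a s ha ih => rw [Finset.sum_insert ha, Finset.sum_insert ha, Lap_add, ih]

theorem iter_sum {ι : Type} (s : Finset ι) (f : ι → R) (j : ℕ) :
    Lap^[j] (∑ i ∈ s, f i) = ∑ i ∈ s, Lap^[j] (f i) := by
  induction j generalizing f with
  | zero => simp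
  | succ j ih =>
    rw [Function.iterate_succ_apply, Lap_sum, ih]
    rfl

theorem iter_mulc (c : ℕ) (F : R) (j : ℕ) : Lap^[j] ((c : R) * F) = (c : R) * Lap^[j] F := by
  induction j generalizing F with
  | zero => rfl
  | succ j ih => rw [Function.iterate_succ_apply, Lap_smul4, ih, Function.iterate_succ_apply]

theorem iter_vv (k j : ℕ) :
    (pderiv ℂ 0)^[j] (vv ^ k) = ((k.descFactorial j : ℕ) : R) * vv ^ (k - j) := by
  induction j with
  | zero => simp
  | succ j ih =>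
    rw [Function.iterate_succ_apply', ih, ← nsmul_eq_mul, map_nsmul, pderiv_pow, D0_vv, mul_one,
      Nat.descFactorial_succ, nsmul_eq_mul, Nat.sub_sub]
    push_cast
    ring

theorem iter_one (j : ℕ) (hj : 1 ≤ j) : (pderiv ℂ 0)^[j] (1 : R) = 0 := by
  obtain ⟨j, rfl⟩ : ∃ k, j = k + 1 := ⟨j - 1, by omega⟩
  rw [Function.iterate_succ_apply, MvPowerSeries.pderiv_one]
  induction j with
  | zero => rfl
  | succ j ih => rw [Function.iterate_succ_apply, map_zero]; exact ih (by omega)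

theorem iter_expTail (K j : ℕ) : (pderiv ℂ 0)^[j] (expTail K) = expTail (K - j) := by
  induction j with
  | zero => rfl
  | succ j ih => rw [Function.iterate_succ_apply', ih, D0_expTail, Nat.sub_sub]

theorem exP_eq (N : ℕ) : exP N = vv * pp ^ N + expTail (N + 1) := rfl

/-- The explicit value `Δ^m P^(m+1) = 4^m (m+1)! p^(N m) g^(m)(u)`. -/
theorem lap_exP (N m : ℕ) (hm : 1 ≤ m) : Lap^[m] (exP N ^ (m + 1)) =
    ((4 ^ m * (m + 1).factorial : ℕ) : R) * (pp ^ (N * m) * expTail (N + 1 - m)) := by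
  rw [exP_eq, add_pow, iter_sum]
  have key : ∀ k ∈ Finset.range (m + 1 + 1),
      Lap^[m] ((vv * pp ^ N) ^ k * expTail (N + 1) ^ (m + 1 - k) * ((m + 1).choose k : R)) =
      if k = m then ((4 ^ m * (m + 1).factorial : ℕ) : R) *
        (pp ^ (N * m) * expTail (N + 1 - m)) else 0 := by
    intro k hk
    have hk' : k ≤ m + 1 := Nat.lt_succ_iff.mp (Finset.mem_range.mp hk)
    have e : (vv * pp ^ N) ^ k * expTail (N + 1) ^ (m + 1 - k) * ((m + 1).choose k : R) =
        ((m + 1).choose k : R) * (vv ^ k * (pp ^ N) ^ k * expTail (N + 1) ^ (m + 1 - k)) := by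
      rw [mul_pow]; ring
    rw [e, iter_mulc, lap_iter (FV_vv.pow k) ((FP_pp.pow N).pow k) ((FU_expTail _).pow _),
      iter_vv]
    by_cases h1 : k = m
    · rw [if_pos h1]
      subst h1
      have h2 : k + 1 - k = 1 := by omega
      rw [h2, pow_one, iter_expTail, Nat.descFactorial_self, Nat.choose_succ_self_right,
        Nat.factorial_succ, Nat.sub_self, pow_zero, ← pow_mul]
      push_cast
      ring
    · rw [if_neg h1]
      rcases Nat.lt_or_gt_of_ne h1 with h2 | h2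
      · rw [Nat.descFactorial_of_lt h2]
        simp
      · have h3 : k = m + 1 := by omega
        rw [h3, Nat.sub_self, pow_zero, iter_one m hm]
        simp
  rw [Finset.sum_congr rfl key, Finset.sum_ite_eq' , if_pos (Finset.mem_range.mpr (by omega))]

theorem coeff_expTail_axis (K k : ℕ) (h : K ≤ k) :
    coeff (Finsupp.single 0 k) (expTail K) = 1 / (k.factorial : ℂ) := by
  rw [coeff_expTail]
  have e0 : (Finsupp.single 0 k : Fin 4 →₀ ℕ) 0 = k := by simp
  have e1 : (Finsupp.single 0 k : Fin 4 →₀ ℕ) 1 = 0 := by simp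
  have e2 : (Finsupp.single 0 k : Fin 4 →₀ ℕ) 2 = 0 := by simp
  have e3 : (Finsupp.single 0 k : Fin 4 →₀ ℕ) 3 = 0 := by simp
  rw [e0, e1, e2, e3, if_pos ⟨rfl, rfl, by omega⟩]
  simp

theorem expTail_ne (K : ℕ) : expTail K ≠ 0 := by
  intro h
  have h1 := coeff_expTail_axis K K le_rfl
  rw [h, map_zero] at h1
  have h2 : (K.factorial : ℂ) ≠ 0 := by exact_mod_cast K.factorial_ne_zero
  exact (one_div_ne_zero h2) h1.symm

theorem pp_ne : pp ≠ 0 := by
  intro h
  have := D2_pp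
  rw [h, map_zero] at this
  exact zero_ne_one this

theorem natCast_ne {c : ℕ} (hc : c ≠ 0) : (c : R) ≠ 0 := by
  intro h
  have h1 := congrArg (constantCoeff (σ := Fin 4) (R := ℂ)) h
  rw [map_natCast, map_zero] at h1
  exact hc (by exact_mod_cast h1)

/-- `v p^N` is a polynomial. -/
noncomputable def vpoly (N : ℕ) : MvPolynomial (Fin 4) ℂ :=
  (MvPolynomial.X 0 - MvPolynomial.C Complex.I * MvPolynomial.X 1) *
    (MvPolynomial.X 2 + MvPolynomial.C Complex.I * MvPolynomial.X 3) ^ N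

theorem coe_sub (f g : MvPolynomial (Fin 4) ℂ) :
    ((f - g : MvPolynomial (Fin 4) ℂ) : R) = (f : R) - (g : R) :=
  map_sub (MvPolynomial.coeToMvPowerSeries.ringHom (σ := Fin 4) (R := ℂ)) f g

theorem vpoly_coe (N : ℕ) : (vpoly N : R) = vv * pp ^ N := by
  unfold vpoly vv pp
  rw [MvPolynomial.coe_mul, MvPolynomial.coe_pow, coe_sub, MvPolynomial.coe_add,
    MvPolynomial.coe_mul, MvPolynomial.coe_mul, MvPolynomial.coe_C, MvPolynomial.coe_X,
    MvPolynomial.coe_X, MvPolynomial.coe_X, MvPolynomial.coe_X]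

theorem exP_not_poly (N : ℕ) (f : MvPolynomial (Fin 4) ℂ) : (f : R) ≠ exP N := by
  intro h
  rw [exP_eq, ← vpoly_coe] at h
  have h1 : expTail (N + 1) = ((f - vpoly N : MvPolynomial (Fin 4) ℂ) : R) := by
    rw [coe_sub, h]; ring
  set g := f - vpoly N
  have h2 := coeff_expTail_axis (N + 1) (N + 1 + g.totalDegree + 1) (by omega)
  rw [h1, MvPolynomial.coeff_coe, MvPolynomial.coeff_eq_zero_of_totalDegree_lt] at h2
  · have h3 : ((N + 1 + g.totalDegree + 1).factorial : ℂ) ≠ 0 := by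
      exact_mod_cast (N + 1 + g.totalDegree + 1).factorial_ne_zero
    exact (one_div_ne_zero h3) h2.symm
  · rw [Finsupp.support_single_ne_zero _ (by omega), Finset.sum_singleton,
      Finsupp.single_eq_same]
    omega

theorem exP_order (N : ℕ) : ((N + 1 : ℕ) : ℕ∞) ≤ (exP N).order := by
  rw [exP_eq]
  refine le_trans (le_min ?_ ?_) (min_order_le_add (f := vv * pp ^ N) (g := expTail (N + 1)))
  · refine le_trans ?_ le_order_mul
    have h1 : (1 : ℕ∞) ≤ vv.order := by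
      rw [one_le_order_iff_constCoeff_eq_zero]
      unfold vv
      simp
    have h2 : (1 : ℕ∞) ≤ pp.order := by
      rw [one_le_order_iff_constCoeff_eq_zero]
      unfold pp
      simp
    have h3 : (N : ℕ∞) ≤ (pp ^ N).order := by
      refine le_trans ?_ (le_order_pow N)
      rw [nsmul_eq_mul]
      calc (N : ℕ∞) = N * 1 := (mul_one _).symm
        _ ≤ N * pp.order := by gcongr
    calc ((N + 1 : ℕ) : ℕ∞) = 1 + (N : ℕ∞) := by push_cast; ring
      _ ≤ _ := add_le_add h1 h3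
  · refine nat_le_order fun d hd => ?_
    rw [coeff_expTail, if_neg]
    rintro ⟨h2, h3, h⟩
    have : Finsupp.degree d = d 0 + d 1 + d 2 + d 3 := by
      rw [Finsupp.degree_eq_sum, Fin.sum_univ_four]
    omega

theorem hes_eq {Q G : R} (hQ : FP Q) (hG : FU G) :
    Hes (vv * Q + G) =
      !![pderiv ℂ 0 (pderiv ℂ 0 G), ii * pderiv ℂ 0 (pderiv ℂ 0 G), pderiv ℂ 2 Q,
          ii * pderiv ℂ 2 Q;
        ii * pderiv ℂ 0 (pderiv ℂ 0 G), -pderiv ℂ 0 (pderiv ℂ 0 G), -(ii * pderiv ℂ 2 Q),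
          pderiv ℂ 2 Q;
        pderiv ℂ 2 Q, -(ii * pderiv ℂ 2 Q), vv * pderiv ℂ 2 (pderiv ℂ 2 Q),
          ii * (vv * pderiv ℂ 2 (pderiv ℂ 2 Q));
        ii * pderiv ℂ 2 Q, pderiv ℂ 2 Q, ii * (vv * pderiv ℂ 2 (pderiv ℂ 2 Q)),
          -(vv * pderiv ℂ 2 (pderiv ℂ 2 Q))] := by
  obtain ⟨q1, q2, q3⟩ := hQ
  obtain ⟨f1, f2, f3⟩ := hG
  obtain ⟨-, v2, v3⟩ := FV_vv
  have v0 := D0_vv
  have v1 := D1_vv
  have f11 : pderiv ℂ 1 (pderiv ℂ 0 G) = ii * pderiv ℂ 0 (pderiv ℂ 0 G) := by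
    rw [pderiv_comm, f1, pderiv_ii]
  have f12 : pderiv ℂ 2 (pderiv ℂ 0 G) = 0 := by
    rw [pderiv_comm, f2, map_zero]
  have f13 : pderiv ℂ 3 (pderiv ℂ 0 G) = 0 := by
    rw [pderiv_comm, f3, map_zero]
  have q11 : pderiv ℂ 3 (pderiv ℂ 2 Q) = ii * pderiv ℂ 2 (pderiv ℂ 2 Q) := by
    rw [pderiv_comm, q3, pderiv_ii]
  have q12 : pderiv ℂ 0 (pderiv ℂ 2 Q) = 0 := by
    rw [pderiv_comm, q1, map_zero]
  have q13 : pderiv ℂ 1 (pderiv ℂ 2 Q) = 0 := by
    rw [pderiv_comm, q2, map_zero]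
  have hi := ii_sq
  refine Matrix.ext fun i j => ?_
  fin_cases i <;> fin_cases j <;>
    simp only [Hes, Matrix.of_apply, Fin.zero_eta, Fin.mk_one, Fin.reduceFinMk, Matrix.cons_val,
      Matrix.cons_val_zero, Matrix.cons_val_one, map_add, pderiv_mul, q1, q2, q3, f1, f2, f3,
      v0, v1, v2, v3, f11, f12, f13, q11, q12, q13, pderiv_ii0, map_neg, map_zero, map_one,
      MvPowerSeries.pderiv_one, mul_zero, zero_mul, add_zero, zero_add, one_mul, mul_one,
      neg_mul, mul_neg, neg_zero] <;>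
    first
      | ring1
      | linear_combination (pderiv ℂ 0 (pderiv ℂ 0 G)) * hi
      | linear_combination (-pderiv ℂ 2 Q) * hi
      | linear_combination (vv * pderiv ℂ 2 (pderiv ℂ 2 Q)) * hi

theorem mat_nil (g a w : R) : (!![g, ii * g, a, ii * a;
        ii * g, -g, -(ii * a), a;
        a, -(ii * a), w, ii * w;
        ii * a, a, ii * w, -w] : Matrix (Fin 4) (Fin 4) R) ^ 4 = 0 := by
  have h2 : (!![g, ii * g, a, ii * a;
        ii * g, -g, -(ii * a), a;
        a, -(ii * a), w, ii * w;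
        ii * a, a, ii * w, -w] : Matrix (Fin 4) (Fin 4) R) ^ 2 =
      !![0, 0, 2 * (g * a), 2 * (ii * (g * a));
        0, 0, 2 * (ii * (g * a)), -(2 * (g * a));
        2 * (g * a), 2 * (ii * (g * a)), 0, 0;
        2 * (ii * (g * a)), -(2 * (g * a)), 0, 0] := by
    rw [pow_two]
    have hi := ii_sq
    refine Matrix.ext fun i j => ?_
    fin_cases i <;> fin_cases j <;>
      simp only [Matrix.mul_apply, Fin.sum_univ_four, Matrix.of_apply, Fin.zero_eta, Fin.mk_one,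
        Fin.reduceFinMk, Matrix.cons_val, Matrix.cons_val_zero, Matrix.cons_val_one] <;>
      first
        | ring1
        | linear_combination (g ^ 2 + a ^ 2) * hi
        | linear_combination (w ^ 2 + a ^ 2) * hi
        | linear_combination (a * w - g * a) * hi
        | linear_combination (g * a - a * w) * hi
  have h4 : (!![g, ii * g, a, ii * a;
        ii * g, -g, -(ii * a), a;
        a, -(ii * a), w, ii * w;
        ii * a, a, ii * w, -w] : Matrix (Fin 4) (Fin 4) R) ^ 4 =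
    (!![g, ii * g, a, ii * a;
        ii * g, -g, -(ii * a), a;
        a, -(ii * a), w, ii * w;
        ii * a, a, ii * w, -w] : Matrix (Fin 4) (Fin 4) R) ^ 2 *
    (!![g, ii * g, a, ii * a;
        ii * g, -g, -(ii * a), a;
        a, -(ii * a), w, ii * w;
        ii * a, a, ii * w, -w] : Matrix (Fin 4) (Fin 4) R) ^ 2 := by
    rw [← pow_add]
  rw [h4, h2]
  have hi := ii_sq
  refine Matrix.ext fun i j => ?_
  fin_cases i <;> fin_cases j <;>
      simp only [Matrix.mul_apply, Fin.sum_univ_four, Matrix.of_apply, Fin.zero_eta, Fin.mk_one,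
        Fin.reduceFinMk, Matrix.cons_val, Matrix.cons_val_zero, Matrix.cons_val_one,
        Matrix.zero_apply] <;>
      first
        | ring1
        | linear_combination (4 * g ^ 2 * a ^ 2) * hi

/-- For every `N` the power series `P = exP N = (z₀ - i z₁) (z₂ + i z₃)^N + ∑_{k>N} (z₀ + i z₁)^k/k!`
in four variables is not a polynomial, has order at least `N + 1` (no monomials of degree `≤ N`),
has nilpotent Hessian matrix, and `Δ^m P^(m+1) ≠ 0` for every `m ≥ 0`. -/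
theorem result (N : ℕ) :
    (∀ f : MvPolynomial (Fin 4) ℂ, (f : R) ≠ exP N) ∧
    ((N + 1 : ℕ) : ℕ∞) ≤ (exP N).order ∧
    IsNilpotent (Hes (exP N)) ∧
    ∀ m : ℕ, Lap^[m] (exP N ^ (m + 1)) ≠ 0 := by
  refine ⟨exP_not_poly N, exP_order N, ⟨4, ?_⟩, ?_⟩
  · rw [exP_eq, hes_eq (FP_pp.pow N) (FU_expTail _)]
    exact mat_nil _ _ _
  · intro m
    rcases Nat.eq_zero_or_pos m with rfl | hm
    · simp only [Function.iterate_zero, id_eq, zero_add, pow_one]
      intro h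
      exact exP_not_poly N 0 (by rw [h, MvPolynomial.coe_zero])
    · rw [lap_exP N m hm]
      refine mul_ne_zero (natCast_ne ?_) (mul_ne_zero (pow_ne_zero _ pp_ne) (expTail_ne _))
      exact mul_ne_zero (pow_ne_zero _ (by norm_num)) (Nat.factorial_ne_zero _)

end Pool.Agent.Results.MP_03a7fb_al.NoVanishing
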