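import Mathlib
import Pool.Agent.TH170.QD.Use
import Pool.Agent.TH170.TT.Deg

/-!
# The Tate conjecture for all products of powers of the abelian varieties of almost all CM types

Let `E i` be finitely many CM fields of degrees `2 g i`, with `2 ^ (∑ i, g i)` families `Φ` of CM types.
For a family `Φ` let `A i` be the abelian variety of CM type `(E i, Φ i)`, and `X = ∏ j, A (t j)` any
product of copies of them. Let `A` be an abelian variety over the algebraic closure of a field finitely
generated over `ℚ` which is isogenous to `X`; it has a model over a number field. Let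
`V = V_ℓ(A) = ℚ_ℓ ⊗ H_1(X, ℚ)` be the rational Tate module, with the action `ρ` of the Galois group `G`
and the cyclotomic character `χ`, and let `γ ∈ G` be the Frobenius element of one place of good
reduction above a prime number `p ≠ ℓ` that splits completely in the fields `E i`. It acts by the
multiplication by `π ∈ ∏ E (t j)`, with absolute values given by the theorem of Shimura and Taniyama
(`IsFrobeniusAt`). `TateUpTo Φ k` (starting file `Pool.Agent.TH170.TT.Tate`) says: for all products `X`
of copies of the `A i`, all such data, and all `m` with `2 m ≤ k`, the Tate classes in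
`H^{2m}(A, ℚ_ℓ(m))` (fixed by a subgroup of finite index of `G`) are linear combinations, with
coefficients in `ℚ_ℓ`, of products of `m` classes of divisors.

The family is called exceptional (`exceptionalFamilies`) if `TateUpTo Φ k` fails for some `k`. For a
family which is not exceptional the Tate conjecture holds, in all codimensions, for all abelian
varieties isogenous to products of powers of the `A i`.

1. If the fields `E i` are pairwise independent (no condition for one field), then there are at most
   `2 ^ (∑ i, g i) * ∑ i, ρ (E i)` exceptional families, where `ρ (E)` is the sum of the weights of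
   the isotypic components of the space of the odd rational functions on the complex embeddings of
   `E`, as in the starting hand-in `AlmostAllCMTypes` on the Hodge conjecture; `RhoEstimate` and
   `NoMultipleComponents` are estimates for `ρ (E)`.
2. For one CM field `E` of degree `2 g` which is abelian over `ℚ` the number of the exceptional types
   is at most `2 ^ g` times the sum over the imaginary cyclic subfields `K` of `E` of
   `weight [K : ℚ] [E : K]` (with `weight m n = (n.choose (n / 2) / 2 ^ n) ^ φ(m)`, and `0` if `m` is a
   power of two and `n` is odd).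
3. There is a constant `C` such that for all cyclic CM fields of degree `2 g` at most `C / g * 2 ^ g` of
   the `2 ^ g` CM types are exceptional.
-/

namespace Pool.Agent.Results.MP_640417_ag.AlmostAllCMTypes

open NumberField Module Pool.Agent.H204R3.CM Pool.Agent.H977R3.CM Pool.Agent.TH170.TT

/-- The families of CM types `Φ i` of the fields `E i` such that on some abelian variety isogenous to a
product of powers of the abelian varieties of CM type `(E i, Φ i)` some Tate class is not a linear
combination of products of divisor classes. -/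
def exceptionalFamilies {ι : Type} (E : ι → Type) [∀ i, Field (E i)] [∀ i, NumberField (E i)]
    [∀ i, IsCMField (E i)] : Set (∀ i, Set (E i →+* ℂ)) :=
  {Φ | (∀ i, IsCMType (Φ i)) ∧ ¬ ∀ k, TateUpTo Φ k}

/-- The CM types `Φ` of `E` such that on some abelian variety isogenous to a power of the abelian
varieties of CM type `(E, Φ)` some Tate class is not a linear combination of products of divisor
classes. -/
def exceptionalTypes (E : Type) [Field E] [NumberField E] [IsCMField E] : Set (Set (E →+* ℂ)) :=
  {Φ | IsCMType Φ ∧ ¬ ∀ k, TateUpTo (fun _ : Unit => Φ) k}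

theorem tate_of_not_degenerate {ι : Type} [Fintype ι] {E : ι → Type} [∀ i, Field (E i)]
    [∀ i, NumberField (E i)] [∀ i, IsCMField (E i)] (hE : PairwiseIndep E)
    {Φ : ∀ i, Set (E i →+* ℂ)} (hΦ : ∀ i, IsCMType (Φ i))
    (hnd : ∀ i, ¬ Pool.Agent.TH170.CM.Degenerate (Φ i)) (k : ℕ) : TateUpTo Φ k :=
  tateUpTo_of_levelFree (levelFree_of_not_degenerate hΦ hE hnd k)

/-- **Tate classes on all products of powers of the abelian varieties of almost all CM types are
generated by divisors.** -/
theorem result :
    (∀ {ι : Type} [Fintype ι] (E : ι → Type) [∀ i, Field (E i)] [∀ i, NumberField (E i)]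
      [∀ i, IsCMField (E i)] (g : ι → ℕ) (φ₀ : ∀ i, E i →+* ℂ), PairwiseIndep E →
      (∀ i, finrank ℚ (E i) = 2 * g i) →
      ((exceptionalFamilies E).ncard : ℝ) ≤
        2 ^ (∑ i, g i) * ∑ i, Pool.Agent.TH170.QD.rho (g i) (φ₀ i)) ∧
    Pool.Agent.TH170.QD.RhoEstimate ∧ Pool.Agent.TH170.QD.NoMultipleComponents ∧
    (∀ (E : Type) [Field E] [NumberField E] [IsCMField E] [IsAbelianGalois ℚ E],
      ((exceptionalTypes E).ncard : ℝ) ≤ 2 ^ (finrank ℚ E / 2) *
        ∑ᶠ K ∈ Pool.Agent.TH170.CM.ImagCyclic E,
          Pool.Agent.TH170.CM.weight (finrank ℚ K) (finrank K E)) ∧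
    ∃ C : ℝ, ∀ (E : Type) [Field E] [NumberField E] [IsCMField E] [IsAbelianGalois ℚ E] (g : ℕ),
      finrank ℚ E = 2 * g → IsCyclic (E ≃ₐ[ℚ] E) →
      {Φ : Set (E →+* ℂ) | IsCMType Φ}.ncard = 2 ^ g ∧
      ((exceptionalTypes E).ncard : ℝ) ≤ C / g * 2 ^ g := by
  have key : ∀ (E : Type) [Field E] [NumberField E] [IsCMField E] (Φ : Set (E →+* ℂ)),
      IsCMType Φ → ¬ Pool.Agent.TH170.CM.Degenerate Φ → ∀ k, TateUpTo (fun _ : Unit => Φ) k :=
    fun E _ _ _ Φ hΦ hnd k =>
      tate_of_not_degenerate (pairwiseIndep_unit E) (fun _ => hΦ) (fun _ => hnd) k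
  obtain ⟨h1, C, h2⟩ := ncard_abelian (fun E _ _ _ Φ => ∀ k, TateUpTo (fun _ : Unit => Φ) k) key
  refine ⟨fun E _ _ _ g φ₀ hE hg => Pool.Agent.TH170.QD.ncard_families_le E hg φ₀
    (fun Φ => ∀ k, TateUpTo Φ k) (fun Φ hΦ hnd k => tate_of_not_degenerate hE hΦ hnd k),
    Pool.Agent.TH170.QD.rho_bounds.1, Pool.Agent.TH170.QD.rho_bounds.2, fun E _ _ _ _ => h1 E, C,
    fun E _ _ _ _ g hg hc => ⟨?_, ?_⟩⟩
  · exact Pool.Agent.TH170.QD.ncard_cmTypes E hg
  · have h3 := (h2 E g hg).2.1 hc
    rw [mul_comm]
    exact h3

end Pool.Agent.Results.MP_640417_ag.AlmostAllCMTypes
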