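import Mathlib
import Pool.Agent.Q112.ML.Ring3

/-!
# MP_f7573e_al: multilinear identities with a unit coefficient

We construct a ring without unit which satisfies an identity of degree five with coprime
coefficients, while all coefficients of all its multilinear identities of degree five are even.
-/

namespace Pool.Agent.Results.MP_f7573e_al.UnitCoefficientFails

open Pool.Agent.Q112.MLUnit

/-- The free associative ring without unit on the variables `x_0, x_1, …` (as an additive group):
integer combinations of nonempty words. -/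
abbrev Poly := FreeSemigroup ℕ →₀ ℤ

/-- The value of a polynomial when the variable `x_i` is replaced by `r i`. -/
noncomputable def eval {R : Type*} [NonUnitalRing R] (r : ℕ → R) (f : Poly) : R :=
  f.sum fun w c => c • FreeSemigroup.lift r w

/-- The ring satisfies the identity `f`. -/
def Satisfies (R : Type*) [NonUnitalRing R] (f : Poly) : Prop :=
  ∀ r : ℕ → R, eval r f = 0

/-- The maximal length of a word occurring in the polynomial. -/
def degree (f : Poly) : ℕ := f.support.sup FreeSemigroup.length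

/-- The greatest common divisor of the coefficients is one. -/
def CoprimeCoeffs (f : Poly) : Prop := (f.support.gcd fun w => f w) = 1

/-- The word `x_{σ(0)} x_{σ(1)} ⋯ x_{σ(k)}`. -/
def word {k : ℕ} (σ : Equiv.Perm (Fin (k + 1))) : FreeSemigroup ℕ :=
  ⟨(σ 0 : ℕ), List.ofFn fun i : Fin k => (σ i.succ : ℕ)⟩

/-- The multilinear polynomial of degree `k + 1` with the coefficients `α`. -/
noncomputable def multilinear {k : ℕ} (α : Equiv.Perm (Fin (k + 1)) → ℤ) : Poly :=
  ∑ σ, Finsupp.single (word σ) (α σ)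

/-! ### Evaluation as a homomorphism -/

section Eval
variable {R : Type*} [NonUnitalRing R] (r : ℕ → R)

lemma eval_add (f g : Poly) : eval r (f + g) = eval r f + eval r g := by
  rw [eval, eval, eval, Finsupp.sum_add_index']
  · intro w; simp
  · intro w a b; rw [add_smul]

lemma eval_zero : eval r 0 = 0 := by simp [eval]

lemma eval_single (w : FreeSemigroup ℕ) (c : ℤ) :
    eval r (Finsupp.single w c) = c • FreeSemigroup.lift r w := by
  simp [eval]

lemma eval_sum {ι : Type*} (s : Finset ι) (f : ι → Poly) :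
    eval r (∑ i ∈ s, f i) = ∑ i ∈ s, eval r (f i) := by
  classical
  induction s using Finset.induction_on with
  | empty => simp [eval_zero]
  | insert a s ha ih => rw [Finset.sum_insert ha, Finset.sum_insert ha, eval_add, ih]

end Eval

/-! ### The identity of degree five -/

/-- A word. -/
noncomputable def wd (a : ℕ) (l : List ℕ) : Poly := Finsupp.single ⟨a, l⟩ 1

/-- The quadratic part. -/
noncomputable def quad (x a b c : ℕ) : Poly :=
  sum3 (fun a b c => wd x [x, a, b, c] + wd x [a, b, c, x] + wd a [x, b, c, x]) a b c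

/-- The sum of the quadratic parts. -/
noncomputable def quads : Poly := quad 0 1 2 3 + quad 1 0 2 3 + quad 2 0 1 3 + quad 3 0 1 2

/-- The identity. -/
noncomputable def ident : Poly :=
  sum4 (fun a b c d => wd a [b, c, d]) 0 1 2 3 + (quads + quads)

lemma eval_wd {R : Type*} [NonUnitalRing R] (r : ℕ → R) (a : ℕ) (l : List ℕ) :
    eval r (wd a l) = FreeSemigroup.lift r ⟨a, l⟩ := by
  rw [wd, eval_single, one_smul]

lemma eval_ident {R : Type*} [NonUnitalRing R] (r : ℕ → R) :
    eval r ident = F (r 0) (r 1) (r 2) (r 3) := by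
  simp only [ident, quads, quad, F, P4, H, K, thrR, sum4, sum3, sum2, eval_add, eval_wd]
  simp only [FreeSemigroup.lift, Equiv.coe_fn_mk, MulHom.coe_mk, List.foldl_cons,
    List.foldl_nil, mul_assoc]

/-! ### Degree and coefficients of the identity -/

/-- The polynomial has no words of length more than five. -/
def Low (f : Poly) : Prop := ∀ w : FreeSemigroup ℕ, 5 < w.length → f w = 0

lemma Low_add {f g : Poly} (hf : Low f) (hg : Low g) : Low (f + g) := fun w hw => by
  rw [Finsupp.add_apply, hf w hw, hg w hw, add_zero]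

lemma Low_wd (a : ℕ) {l : List ℕ} (hl : l.length ≤ 4) : Low (wd a l) := fun w hw => by
  rw [wd, Finsupp.single_apply, if_neg]
  rintro rfl
  simp only [FreeSemigroup.length] at hw
  omega

lemma Low_sum3 {f : ℕ → ℕ → ℕ → Poly} (h : ∀ a b c, Low (f a b c)) (a b c : ℕ) :
    Low (sum3 f a b c) := by
  simp only [sum3, sum2]
  exact Low_add (Low_add (Low_add (h _ _ _) (h _ _ _)) (Low_add (h _ _ _) (h _ _ _)))
    (Low_add (h _ _ _) (h _ _ _))

lemma Low_quad (x a b c : ℕ) : Low (quad x a b c) :=
  Low_sum3 (fun a b c => Low_add (Low_add (Low_wd x (by simp)) (Low_wd x (by simp)))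
    (Low_wd a (by simp))) a b c

lemma Low_quads : Low quads :=
  Low_add (Low_add (Low_add (Low_quad _ _ _ _) (Low_quad _ _ _ _)) (Low_quad _ _ _ _))
    (Low_quad _ _ _ _)

lemma Low_ident : Low ident := by
  refine Low_add ?_ (Low_add Low_quads Low_quads)
  have h : ∀ a b c d, Low (wd a [b, c, d]) := fun a b c d => Low_wd a (by simp)
  simp only [sum4]
  exact Low_add (Low_add (Low_add (Low_sum3 (h _) _ _ _) (Low_sum3 (h _) _ _ _))
    (Low_sum3 (h _) _ _ _)) (Low_sum3 (h _) _ _ _)

lemma wd_apply (a b : ℕ) (l m : List ℕ) :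
    wd a l ⟨b, m⟩ = if a = b ∧ l = m then 1 else 0 := by
  rw [wd, Finsupp.single_apply]
  congr 1
  simp

lemma ident_apply (a : ℕ) (l : List ℕ) : ident ⟨a, l⟩ =
    sum4 (fun x b c d => if x = a ∧ [b, c, d] = l then (1 : ℤ) else 0) 0 1 2 3
    + ((quads ⟨a, l⟩) + (quads ⟨a, l⟩)) := by
  rw [ident, Finsupp.add_apply, Finsupp.add_apply]
  simp only [sum4, sum3, sum2, Finsupp.add_apply, wd_apply]

lemma quads_apply (a : ℕ) (l : List ℕ) : quads ⟨a, l⟩ =
    (sum3 (fun x b c => (if 0 = a ∧ [0, x, b, c] = l then (1 : ℤ) else 0)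
      + (if 0 = a ∧ [x, b, c, 0] = l then 1 else 0)
      + (if x = a ∧ [0, b, c, 0] = l then 1 else 0)) 1 2 3)
    + (sum3 (fun x b c => (if 1 = a ∧ [1, x, b, c] = l then (1 : ℤ) else 0)
      + (if 1 = a ∧ [x, b, c, 1] = l then 1 else 0)
      + (if x = a ∧ [1, b, c, 1] = l then 1 else 0)) 0 2 3)
    + (sum3 (fun x b c => (if 2 = a ∧ [2, x, b, c] = l then (1 : ℤ) else 0)
      + (if 2 = a ∧ [x, b, c, 2] = l then 1 else 0)
      + (if x = a ∧ [2, b, c, 2] = l then 1 else 0)) 0 1 3)
    + (sum3 (fun x b c => (if 3 = a ∧ [3, x, b, c] = l then (1 : ℤ) else 0)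
      + (if 3 = a ∧ [x, b, c, 3] = l then 1 else 0)
      + (if x = a ∧ [3, b, c, 3] = l then 1 else 0)) 0 1 2) := by
  rw [quads, Finsupp.add_apply, Finsupp.add_apply, Finsupp.add_apply]
  simp only [quad, sum3, sum2, Finsupp.add_apply, wd_apply]

lemma ident_four : ident ⟨0, [1, 2, 3]⟩ = 1 := by
  rw [ident_apply, quads_apply]
  decide

lemma ident_five : ident ⟨0, [0, 1, 2, 3]⟩ = 2 := by
  rw [ident_apply, quads_apply]
  decide

lemma ident_ne_zero : ident ≠ 0 := by
  intro h
  have := ident_four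
  rw [h] at this
  simp at this

lemma degree_ident : degree ident = 4 + 1 := by
  apply le_antisymm
  · rw [degree, Finset.sup_le_iff]
    intro w hw
    by_contra h
    push Not at h
    exact (Finsupp.mem_support_iff.1 hw) (Low_ident w h)
  · have hm : (⟨0, [0, 1, 2, 3]⟩ : FreeSemigroup ℕ) ∈ ident.support := by
      rw [Finsupp.mem_support_iff, ident_five]; norm_num
    exact Finset.le_sup (f := FreeSemigroup.length) hm

lemma coprime_ident : CoprimeCoeffs ident := by
  have hm : (⟨0, [1, 2, 3]⟩ : FreeSemigroup ℕ) ∈ ident.support := by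
    rw [Finsupp.mem_support_iff, ident_four]; norm_num
  have h1 : (ident.support.gcd fun w => ident w) ∣ ident ⟨0, [1, 2, 3]⟩ := Finset.gcd_dvd hm
  rw [ident_four] at h1
  have h2 : 0 ≤ (ident.support.gcd fun w => ident w) :=
    Int.nonneg_of_normalize_eq_self Finset.normalize_gcd
  exact Int.eq_one_of_dvd_one h2 h1

/-! ### The ring -/

lemma hom_F {R R' : Type*} [NonUnitalRing R] [NonUnitalRing R'] (φ : R →ₙ+* R')
    (a b c d : R) : φ (F a b c d) = F (φ a) (φ b) (φ c) (φ d) := by
  simp only [F, H, K, P4, sum4, sum3, sum2, thrR, map_add, map_mul]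

lemma satisfies_ident : Satisfies RR ident := by
  intro r
  rw [eval_ident]
  apply Subtype.ext
  have e : ((F (r 0) (r 1) (r 2) (r 3) : RR) : Q)
      = F (r 0 : Q) (r 1 : Q) (r 2 : Q) (r 3 : Q) :=
    hom_F (NonUnitalSubringClass.subtype RR) _ _ _ _
  rw [e, F_all (r 0).2 (r 1).2 (r 2).2 (r 3).2]
  rfl

/-- The letters. -/
noncomputable def letter (n : ℕ) : RR := ⟨X [n], X_mem (by simp)⟩

lemma coe_foldl (s : ℕ → ℕ) (l : List ℕ) : ∀ w : List ℕ, ∀ z : RR, (z : Q) = X w →
    ((l.foldl (fun a b => a * letter (s b)) z : RR) : Q) = X (w ++ l.map s) := by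
  induction l with
  | nil => intro w z hz; simpa using hz
  | cons b l ih =>
      intro w z hz
      rw [List.foldl_cons, ih (w ++ [s b]) (z * letter (s b))]
      · simp
      · have e : ((z * letter (s b) : RR) : Q) = (z : Q) * X [s b] := rfl
        rw [e, hz]
        exact X_mul _ _

lemma coe_lift (s : ℕ → ℕ) (a : ℕ) (l : List ℕ) :
    ((FreeSemigroup.lift (fun n => letter (s n)) ⟨a, l⟩ : RR) : Q) = X (s a :: l.map s) := by
  rw [FreeSemigroup.lift_mk_eq_foldl]
  exact coe_foldl s l [s a] _ rfl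

/-- All coefficients of the multilinear identities of degree five of the ring are even. -/
theorem even_coeffs (α : Equiv.Perm (Fin (4 + 1)) → ℤ) (hα : Satisfies RR (multilinear α))
    (σ : Equiv.Perm (Fin (4 + 1))) : Even (α σ) := by
  -- replace the variable `x_i` by the letter `σ⁻¹ i`
  let s : ℕ → ℕ := fun n => if hn : n < 5 then ((σ⁻¹ ⟨n, hn⟩ : Fin 5) : ℕ) else 0
  have hs : ∀ i : Fin 5, s (i : ℕ) = ((σ⁻¹ i : Fin 5) : ℕ) := by
    intro i; simp only [s, i.2, dif_pos]
  have h1 := hα (fun n => letter (s n))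
  rw [multilinear, eval_sum] at h1
  simp only [eval_single] at h1
  have h2 := congrArg (NonUnitalSubringClass.subtype RR) h1
  rw [map_sum, map_zero] at h2
  simp only [map_zsmul] at h2
  have h0 : ∀ τ : Equiv.Perm (Fin 5),
      NonUnitalSubringClass.subtype RR (FreeSemigroup.lift (fun n => letter (s n)) (word τ))
        = pj (mo (List.ofFn fun i => ((σ⁻¹ (τ i) : Fin 5) : ℕ))) := by
    intro τ
    have e := coe_lift s (τ 0 : ℕ) (List.ofFn fun i : Fin 4 => (τ i.succ : ℕ))
    have hl : s (τ 0 : ℕ) :: (List.ofFn fun i : Fin 4 => (τ i.succ : ℕ)).map s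
        = List.ofFn fun i => ((σ⁻¹ (τ i) : Fin 5) : ℕ) := by
      rw [List.ofFn_succ (f := fun i : Fin 5 => ((σ⁻¹ (τ i) : Fin 5) : ℕ)), List.map_ofFn, hs]
      have hf : (s ∘ fun i : Fin 4 => ((τ i.succ : Fin 5) : ℕ))
          = fun i : Fin 4 => ((σ⁻¹ (τ i.succ) : Fin 5) : ℕ) := by
        funext i
        exact hs _
      rw [hf]
    rw [NonUnitalSubringClass.subtype_apply, word, e, hl, X]
  simp only [h0] at h2
  have h3 : pj (∑ τ : Equiv.Perm (Fin 5), α τ • mo (List.ofFn fun i => ((σ⁻¹ (τ i) : Fin 5) : ℕ)))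
      = 0 := by
    rw [map_sum, ← h2]
    refine Finset.sum_congr rfl fun τ _ => ?_
    rw [map_zsmul]
  have h4 := Lam_of_pj h3
  rw [map_sum] at h4
  simp only [map_zsmul, Lam_mo] at h4
  have h5 : ∀ τ : Equiv.Perm (Fin 5), (lam (List.ofFn fun i => ((σ⁻¹ (τ i) : Fin 5) : ℕ)))
      = if τ = σ then 2 else 0 := by
    intro τ
    have hl : ∀ w : List ℕ, w.length = 5 → lam w = fiv w := by
      intro w hw
      rw [lam, if_neg]
      rintro (h | h)
      · have := congrArg Multiset.card h
        rw [card_mA, Multiset.coe_card] at this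
        omega
      · have := congrArg Multiset.card h
        rw [card_mB, Multiset.coe_card] at this
        omega
    rw [hl _ (by simp), fiv]
    have hiff : (List.ofFn fun i => ((σ⁻¹ (τ i) : Fin 5) : ℕ)) = [0, 1, 2, 3, 4] ↔ τ = σ := ?_
    · simp only [hiff]
    constructor
    · intro hw
      have hw' : (List.ofFn fun i => ((σ⁻¹ (τ i) : Fin 5) : ℕ))
          = List.ofFn fun i : Fin 5 => (i : ℕ) := by
        rw [hw]; rfl
      have h6 := List.ofFn_injective hw'
      ext i
      have h7 := congrFun h6 i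
      have h8 : σ⁻¹ (τ i) = i := Fin.ext h7
      rw [Equiv.Perm.inv_eq_iff_eq] at h8
      rw [← h8]
    · rintro rfl
      simp
  simp only [h5] at h4
  rw [Finset.sum_eq_single σ] at h4
  · rw [if_pos rfl, zsmul_eq_mul] at h4
    have h6 : ((α σ * 2 : ℤ) : ZMod 4) = 0 := by
      rw [Int.cast_mul]
      simpa using h4
    rw [ZMod.intCast_zmod_eq_zero_iff_dvd] at h6
    obtain ⟨m, hm⟩ := h6
    push_cast at hm
    exact ⟨m, by omega⟩
  · intro τ _ hτ
    rw [if_neg hτ]; simp
  · intro h; exact absurd (Finset.mem_univ _) h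

/-- **Answer to the question.**  Some ring without unit satisfies an identity of degree five with
coprime coefficients, but all multilinear identities of degree five of this ring have only even
coefficients.  Consequently, the assertion of the question is false. -/
theorem result :
    (∃ (R : Type) (_ : NonUnitalRing R),
      (∃ f : Poly, f ≠ 0 ∧ Satisfies R f ∧ degree f = 4 + 1 ∧ CoprimeCoeffs f) ∧
      ∀ α : Equiv.Perm (Fin (4 + 1)) → ℤ, Satisfies R (multilinear α) → ∀ σ, Even (α σ)) ∧
    ¬ ∀ (R : Type) [NonUnitalRing R] (k : ℕ),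
      (∃ f : Poly, f ≠ 0 ∧ Satisfies R f ∧ degree f = k + 1 ∧ CoprimeCoeffs f) →
      ∃ α : Equiv.Perm (Fin (k + 1)) → ℤ, Satisfies R (multilinear α) ∧ ∃ σ, α σ = 1 := by
  refine ⟨⟨RR, inferInstance, ⟨ident, ident_ne_zero, satisfies_ident, degree_ident,
    coprime_ident⟩, even_coeffs⟩, fun h => ?_⟩
  obtain ⟨α, hα, σ, hσ⟩ := h RR 4 ⟨ident, ident_ne_zero, satisfies_ident, degree_ident,
    coprime_ident⟩
  have h1 := even_coeffs α hα σ
  rw [hσ] at h1
  exact absurd h1 (by decide)

end Pool.Agent.Results.MP_f7573e_al.UnitCoefficientFails
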